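import Pool.Agent.T2H22.DF.AsmA
import Pool.Agent.T2H22.AA.Env4

/-! Project DF: the assembly of project AA for differences. -/

set_option autoImplicit false

open Finset

namespace Pool.Agent.T2H22.DF

open Pool.Agent.T2H22.AA
open Pool.Agent.T2H22.AD

open Pool.Agent.H361R2.PP
open Pool.Agent.W70.HR
open Pool.Agent.H862R2.PPSm5 (vv_lower HH_tendsto log_tendsto)
open Pool.Agent.H373R2.T7 (Vz pz mem_pz)
open Pool.Agent.T2H22.BG (sh sh_inj)

open Classical in
/-- one interval -/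
theorem oneD (hI : EqI) (hP : EqP) (r : ℕ) : ∃ k2 : ℕ, 1 ≤ k2 ∧
    ∀ (S : Finset ℕ) (τ : ℕ → ℕ), S.card = k2 → (∀ a ∈ S, 1 ≤ a) → Set.InjOn τ S → (∀ a ∈ S, 1 ≤ τ a) →
    ∃ D : ℕ, ∀ η : ℝ, 0 < η → ∃ X₀ : ℕ, ∀ X : ℕ, X₀ ≤ X →
    (((Ico (6 * X) (9 * X)).filter (fun N => LocD S τ X (N - (3 * X - 1)) ∧
      (gdD S τ r X (N - (3 * X - 1)) : ℝ) < X / Real.log X ^ D)).card : ℝ) ≤ η * X := by
  obtain ⟨k, K, hk, hK, s₀, hs₀, hs₀1, hmt⟩ := mtenv r
  obtain ⟨δE, cE, hδE, hδE16, hcE, XE, hmt⟩ := hmt 1 one_pos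
  obtain ⟨k2, δG, hk2, hk21, hδG, hδG8, hlow⟩ := lowB k
  obtain ⟨cv, hcv, hcv1, hvv⟩ := vv_lower
  refine ⟨k2, by omega, ?_⟩
  intro S τ hSc hS1 hτ hτ1
  set c0 : ℕ := S.sup τ with hc0d
  have hc0 : ∀ a ∈ S, τ a ≤ c0 := fun a ha => Finset.le_sup (f := τ) ha
  set T : Finset ℕ := S.image τ with hT
  obtain ⟨c, hc, XL, hlow⟩ := hlow S hSc hS1
  set A' : ℕ := k2 + 2 * k + 3 with hA'
  set U : ℕ := A' + k + 4 with hU
  set D : ℕ := A' + k + 2 with hD
  choose BI hBI using fun T' : Finset ℕ => hI T' K U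
  choose BP hBP using fun T' : Finset ℕ => hP T' K U
  set B : ℕ := max (T.powerset.sup BI) (T.powerset.sup BP) + 1 with hB
  have hBI' : ∀ T' ⊆ T, BI T' ≤ B := fun T' h =>
    ((Finset.le_sup (mem_powerset.2 h)).trans (le_max_left _ _)).trans (Nat.le_succ _)
  have hBP' : ∀ T' ⊆ T, BP T' ≤ B := fun T' h =>
    ((Finset.le_sup (mem_powerset.2 h)).trans (le_max_right _ _)).trans (Nat.le_succ _)
  set E : ℕ := B + 1 with hE
  choose XI hXI using fun T' : Finset ℕ => hBI T' E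
  choose XP hXP using fun T' : Finset ℕ => hBP T' E
  refine ⟨D, ?_⟩
  intro η hη
  obtain ⟨Cu, hCu, XU, hUp⟩ := upW S δG hδG hδG8
  choose XS hXS using fun T' : Finset ℕ => secP S.card T' δG c Cu (η / 2) E hδG hδG8 hc hCu (by positivity)
  -- large `X`
  obtain ⟨Xw, hw⟩ := Pool.Agent.H325R2.wtx.2 δE hδE (by linarith)
  obtain ⟨Xw', hw'⟩ := Pool.Agent.H325R2.wtx.2 δG hδG (by linarith)
  obtain ⟨Xz, hXz⟩ := log_rpow_pow (E + 1) (δE / 2) (by positivity)
  obtain ⟨Xz', hXz'⟩ := log_rpow_pow (E + 1) (δG / 2) (by positivity)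
  obtain ⟨XH, hXH⟩ := Filter.eventually_atTop.1 (HH_tendsto.eventually_ge_atTop (2 * k + 2))
  obtain ⟨Xpp, hXpp⟩ := ev_pp (A' + k + 2)
  obtain ⟨Xl, hXl⟩ := Filter.eventually_atTop.1 (log_tendsto.eventually_ge_atTop
    (max (max ((c0 : ℝ) + 2) (K + 2)) (max (max (4 / (η * c * cv ^ (k2 + 2 * k)))
      (4 / (cE * cv ^ k))) (Real.log 9 / s₀))))
  refine ⟨max (max (max XE (max XL XU)) (max (T.powerset.sup XI) (T.powerset.sup XP)))
    (max (max (T.powerset.sup XS) (max Xw Xw')) (max (max Xz Xz') (max XH (max Xpp (max Xl 16))))), ?_⟩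
  intro X hX
  simp only [max_le_iff] at hX
  obtain ⟨⟨⟨hXE, hXL, hXU⟩, hXIs, hXPs⟩, ⟨hXSs, hXw, hXw'⟩, ⟨hXz1, hXz1'⟩, hXH1, hXpp1, hXl1, hX16⟩ := hX
  obtain ⟨hw1, hw2, hw3⟩ := hw X hXw
  obtain ⟨hw1', hw2', hw3'⟩ := hw' X hXw'
  have hz1 := hXz X hXz1
  have hz1' := hXz' X hXz1'
  have hHH := hXH X hXH1
  have hpp := hXpp X hXpp1
  have hlogs := hXl X hXl1
  simp only [max_le_iff] at hlogs
  obtain ⟨⟨hl1, hl2⟩, ⟨hl3, hl4⟩, hl5⟩ := hlogs
  have hXr : (16 : ℝ) ≤ X := by exact_mod_cast hX16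
  have hX0 : (0 : ℝ) < X := by linarith
  have hX1 : 1 ≤ X := by omega
  set L := Real.log X with hL
  have hL2 : 2 ≤ L := by
    have : (0 : ℝ) ≤ c0 := Nat.cast_nonneg _
    linarith
  have hL0 : 0 < L := by linarith
  have hL1 : 1 ≤ L := by linarith
  have hW0 : 0 < Wm X := Wm_pos X
  have hWr : (0 : ℝ) < Wm X := by exact_mod_cast hW0
  have hWL : (Wm X : ℝ) ≤ L := by
    calc (Wm X : ℝ) ≤ L ^ (7 / 20 : ℝ) := Pool.Agent.H325R2.wtx.1 X hX16
      _ ≤ L ^ (1 : ℝ) := Real.rpow_le_rpow_of_exponent_le hL1 (by norm_num)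
      _ = L := Real.rpow_one _
  -- the sifting limit
  set z : ℕ := ⌈L ^ B⌉₊ with hz
  have hLB1 : 1 ≤ L ^ B := one_le_pow₀ hL1
  have hzl : L ^ B ≤ z := Nat.le_ceil _
  have hzu : (z : ℝ) ≤ L ^ E := by
    have h1 : (z : ℝ) < L ^ B + 1 := Nat.ceil_lt_add_one (by positivity)
    have h2 : L ^ B + 1 ≤ L ^ E := by
      calc L ^ B + 1 ≤ L ^ B + L ^ B := by linarith
        _ = 2 * L ^ B := by ring
        _ ≤ L * L ^ B := mul_le_mul_of_nonneg_right hL2 (by positivity)
        _ = L ^ E := (pow_succ' L B).symm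
    linarith
  have hzL : L ≤ z := by
    have : L ≤ L ^ B := by
      calc L = L ^ 1 := (pow_one L).symm
        _ ≤ L ^ B := pow_le_pow_right₀ hL1 (by omega)
    linarith
  have hHL : (HH X : ℝ) ≤ L := by
    unfold HH
    have hll : 0 ≤ Real.log L := Real.log_nonneg hL1
    calc ((⌊Real.log (Real.log X) / 4⌋₊ : ℕ) : ℝ) ≤ Real.log (Real.log X) / 4 :=
          Nat.floor_le (by rw [← hL]; positivity)
      _ ≤ Real.log L := by rw [← hL]; linarith
      _ ≤ L := (Real.log_le_sub_one_of_pos (by linarith)).trans (by linarith)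
  have hHz : HH X ≤ z := by
    have : (HH X : ℝ) ≤ z := hHL.trans hzL
    exact_mod_cast this
  have hKz : K ≤ z := by
    have : (K : ℝ) ≤ z := by linarith
    exact_mod_cast this
  have hlt : ∀ δ : ℝ, L ^ (E + 1) ≤ (X : ℝ) ^ (δ / 2) → (X : ℝ) ^ (δ / 2) ≤ 2 ^ 2 ^ JJ δ X →
      z < 2 ^ 2 ^ JJ δ X := by
    intro δ h1 h2
    have h3 : (z : ℝ) < 2 ^ 2 ^ JJ δ X := by
      calc (z : ℝ) ≤ L ^ E := hzu
        _ < L ^ (E + 1) := pow_lt_pow_right₀ (by linarith) (Nat.lt_succ_self E)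
        _ ≤ _ := h1.trans h2
    exact_mod_cast h3
  have hzE : z < 2 ^ 2 ^ JJ δE X := hlt δE hz1 hw2
  have hzG : z < 2 ^ 2 ^ JJ δG X := hlt δG hz1' hw2'
  have h2HH : 2 ≤ HH X := by omega
  have hvE : cv / L ≤ VE z (JJ δE X) :=
    (hvv X δE hδE (by linarith) hX16 h2HH hw1 hw3).trans (VV_le_VE hHz)
  have hvG : cv / L ≤ VV δG X := hvv X δG hδG (by linarith) hX16 h2HH hw1' hw3'
  have hvG0 : 0 ≤ VV δG X := Pool.Agent.H862R2.PPSm5.vv_nonneg δG X
  have hvtk := VT_ge (k := k) (by omega : 2 * k ≤ HH X) hzG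
  have h2W : 2 ∣ Wm X := by
    unfold Wm
    exact Nat.prime_two.dvd_primorial_iff.2 h2HH
  -- one class
  have hclass : ∀ u < Wm X, ((((Ico (6 * X) (9 * X)).filter (fun N => LocD S τ X (N - (3 * X - 1)) ∧
      (gdD S τ r X (N - (3 * X - 1)) : ℝ) < X / L ^ D)).filter (fun N => N % Wm X = u)).card : ℝ) ≤
      η * (X / Wm X) := by
    intro u hu
    set E0 := ((Ico (6 * X) (9 * X)).filter (fun N => LocD S τ X (N - (3 * X - 1)) ∧
      (gdD S τ r X (N - (3 * X - 1)) : ℝ) < X / L ^ D)).filter (fun N => N % Wm X = u) with hE0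
    by_contra hcon
    push Not at hcon
    have hne : E0.Nonempty := by
      rw [← card_pos]
      have : (0 : ℝ) < E0.card := lt_of_le_of_lt (by positivity) hcon
      exact_mod_cast this
    have hloc : ∃ b1 b2 : ℕ, b1 < Wm X ∧ b2 < Wm X ∧
        b1 + (3 * X - 1 + (Wm X - b2)) % Wm X ≡ u [MOD Wm X] ∧
        (∀ a ∈ S, (b2 + a).Coprime (Wm X)) ∧ ∀ a ∈ S, (b1 + τ a).Coprime (Wm X) := by
      obtain ⟨N, hN⟩ := hne
      rw [hE0, mem_filter, mem_filter, mem_Ico] at hN
      have h3 : N ≡ N % Wm X [MOD Wm X] := (Nat.mod_modEq N (Wm X)).symm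
      rw [hN.2] at h3
      obtain ⟨b1, b2, h4, h5, h6, h7, h8⟩ := hN.1.2.1
      refine ⟨b1, b2, h4, h5, ?_, h7, h8⟩
      refine Nat.ModEq.trans ?_ h3
      have h9 : b1 + (3 * X - 1 + (Wm X - b2)) % Wm X ≡
          b2 + (N - (3 * X - 1)) + (3 * X - 1 + (Wm X - b2)) [MOD Wm X] :=
        Nat.ModEq.add h6 (Nat.mod_modEq _ _)
      refine h9.trans ?_
      have h10 : b2 + (N - (3 * X - 1)) + (3 * X - 1 + (Wm X - b2)) = N + Wm X := by
        have := hN.1.1.1
        omega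
      rw [h10]
      simp [Nat.ModEq]
    obtain ⟨b1, b2o, hb1, hb2o, hbu, hb2S, hb1S⟩ := hloc
    obtain ⟨S', hS', hS'c, Go, hGIo, hGr, hGp, hGco⟩ := hlow X hXL b2o hb2o hb2S
    have hGIo' : ∀ y ∈ Go, X ≤ y ∧ y < 2 * X := by
      intro y hy
      have := hGIo hy
      unfold SI at this
      exact mem_Ico.1 (mem_filter.1 this).1
    set b2 := (3 * X - 1 + (Wm X - b2o)) % Wm X with hb2d
    have hb2 : b2 < Wm X := Nat.mod_lt _ hW0
    set G := mir X Go with hGd
    have hGI : G ⊆ SI X b2 := mir_SI hGIo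
    have hGc : c * Om δG X S.card ≤ (G.card : ℝ) := by
      rw [hGd, card_mir hGIo']
      exact hGco
    have hGpair : ∑ h ∈ Icc 1 X, ((G.filter (fun y => y + h ∈ G)).card : ℝ) ^ 2 ≤
        Cu * (Om δG X S.card ^ 4 * (Wm X / X)) := by
      refine le_trans ?_ (hUp X hXU b2o hb2o Go hGIo hGr)
      apply sum_le_sum
      intro h _
      apply pow_le_pow_left₀ (Nat.cast_nonneg _)
      exact_mod_cast mir_pairs hGIo' h
    set T' := S'.image τ with hT'
    have hT'T : T' ⊆ T := image_subset_image hS'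
    have hT'c : T'.card = k := by
      rw [hT', card_image_of_injOn (hτ.mono hS'), hS'c]
    have hT'1 : ∀ t ∈ T', 1 ≤ t ∧ t ≤ c0 ∧ (b1 + t).Coprime (Wm X) := by
      intro t ht
      rw [hT', mem_image] at ht
      obtain ⟨a, ha, rfl⟩ := ht
      exact ⟨hτ1 a (hS' ha), hc0 a (hS' ha), hb1S a (hS' ha)⟩
    have hGI' : ∀ y ∈ G, X ≤ y ∧ y < 2 * X := by
      intro y hy
      have := hGI hy
      unfold SI at this
      exact mem_Ico.1 (mem_filter.1 this).1
    have hGX : (G.card : ℝ) ≤ X := by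
      have h1 : G ⊆ Ico X (2 * X) := fun y hy => mem_Ico.2 (hGI' y hy)
      have h2 := card_le_card h1
      rw [Nat.card_Ico] at h2
      have h3 : G.card ≤ X := by omega
      exact_mod_cast h3
    have hXS' := hXS T' X (sup_le_of _ XS hXSs T' (mem_powerset.2 hT'T)) z hHz hzu b1 b2 hb1 hb2 G hGI
      hGpair hGc
    set ρ := rhoT X z b1 T' with hρ
    have hρ0 : ∀ x, 0 ≤ ρ x := rho_nonneg X z b1 T'
    have hρ1 : ∀ x, ρ x ≤ 1 := rho_le_one X z b1 T'
    rw [hT'c] at hXS'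
    set E' := E0.filter (fun N => ¬ (∑ y ∈ G, ρ (N - y) < 1 / 2 * ((G.card : ℝ) * VT X z k))) with hE'
    have hE0I : ∀ N ∈ E0, 6 * X ≤ N ∧ N < 9 * X := fun N hN =>
      mem_Ico.1 (mem_filter.1 (mem_filter.1 hN).1).1
    have hE'I : ∀ N ∈ E', 6 * X ≤ N ∧ N < 9 * X := fun N hN => hE0I N (mem_filter.1 hN).1
    have hE'c : η / 2 * (X / Wm X) ≤ (E'.card : ℝ) := by
      have h1 : E0.card = (E0.filter (fun N => ∑ y ∈ G, ρ (N - y) < 1 / 2 * ((G.card : ℝ) * VT X z k))).card +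
          E'.card := (card_filter_add_card_filter_not _).symm
      have h2 : ((E0.filter (fun N => ∑ y ∈ G, ρ (N - y) < 1 / 2 * ((G.card : ℝ) * VT X z k))).card : ℝ) ≤
          η / 2 * (X / Wm X) := by
        refine le_trans ?_ hXS'
        apply Nat.cast_le.2
        apply card_le_card
        intro N hN
        rw [mem_filter] at hN
        rw [mem_filter]
        refine ⟨mem_Ico.2 (hE0I N hN.1), ?_, hN.2⟩
        have h3 := (mem_filter.1 hN.1).2
        have h4 : N ≡ u [MOD Wm X] := by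
          unfold Nat.ModEq
          rw [h3, Nat.mod_eq_of_lt hu]
        exact h4.trans hbu.symm
      have h3 : (E0.card : ℝ) = ((E0.filter (fun N => ∑ y ∈ G, ρ (N - y) <
          1 / 2 * ((G.card : ℝ) * VT X z k))).card : ℝ) + (E'.card : ℝ) := by
        exact_mod_cast h1
      linarith
    have hE'X : (E'.card : ℝ) ≤ 3 * X := by
      have h1 : E' ⊆ Ico (6 * X) (9 * X) := fun N hN => mem_Ico.2 (hE'I N hN)
      have h2 := card_le_card h1
      rw [Nat.card_Ico] at h2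
      have h3 : E'.card ≤ 3 * X := by omega
      exact_mod_cast h3
    -- the mass
    set Ω := OmI X ρ E' G with hΩ
    have hΩl : (X : ℝ) ^ 2 / L ^ A' ≤ Ω := by
      apply num_Om (W := (Wm X : ℝ)) (η := η) (c := c) (cv := cv) (vG := VV δG X) (e := (E'.card : ℝ))
        (g := (G.card : ℝ)) (vt := VT X z k) hX0 hWr hWL hL1 hcv hvG hc hη hE'c
      · have := hGc
        rw [hSc] at this
        exact this
      · exact hvtk
      · rw [hΩ, OmI_eq X ρ E' G hE'I hGI']
        calc (E'.card : ℝ) * (1 / 2 * ((G.card : ℝ) * VT X z k)) =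
            ∑ N ∈ E', (1 / 2 * ((G.card : ℝ) * VT X z k)) := by rw [sum_const, nsmul_eq_mul]
          _ ≤ _ := by
              apply sum_le_sum
              intro N hN
              exact not_lt.1 (mem_filter.1 hN).2
      · have h1 : 0 < η * c * cv ^ (k2 + 2 * k) := by positivity
        rw [div_le_iff₀ h1] at hl3
        linarith
    have hΩ0 : 0 < Ω := lt_of_lt_of_le (by positivity) hΩl
    have hsq : √((E'.card : ℝ) * G.card) ≤ 2 * X :=
      num_sqrt hX0.le (Nat.cast_nonneg _) (Nat.cast_nonneg _) hE'X hGX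
    have hδsq : X / L ^ U * √((E'.card : ℝ) * G.card) ≤ (X : ℝ) ^ 2 / (2 * L ^ (A' + k + 2)) := by
      calc X / L ^ U * √((E'.card : ℝ) * G.card) ≤ X / L ^ U * (2 * X) :=
            mul_le_mul_of_nonneg_left hsq (by positivity)
        _ = (4 / L ^ 2) * ((X : ℝ) ^ 2 / (2 * L ^ (A' + k + 2))) := by
            rw [hU, show A' + k + 4 = (A' + k + 2) + 2 by omega, pow_add L (A' + k + 2) 2]
            field_simp
            ring
        _ ≤ 1 * ((X : ℝ) ^ 2 / (2 * L ^ (A' + k + 2))) := by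
            apply mul_le_mul_of_nonneg_right _ (by positivity)
            rw [div_le_one (by positivity)]
            nlinarith only [hL2]
        _ = _ := one_mul _
    have hΩl2 : (X : ℝ) ^ 2 / L ^ (A' + k + 2) ≤ Ω / L ^ (k + 2) := by
      rw [show A' + k + 2 = A' + (k + 2) by omega, pow_add, ← div_div]
      exact div_le_div_of_nonneg_right hΩl (by positivity)
    have hhalf : (X : ℝ) ^ 2 / (2 * L ^ (A' + k + 2)) = (X : ℝ) ^ 2 / L ^ (A' + k + 2) / 2 := by
      field_simp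
    have hpos2 : 0 < (X : ℝ) ^ 2 / L ^ (A' + k + 2) := by positivity
    have hEI : ∀ N ∈ E', N < 9 * X := fun N hN => (hE'I N hN).2
    have hGI2 : ∀ y ∈ G, y < 2 * X := fun y hy => (hGI' y hy).2
    -- the environment
    have hEnvI : Envw none K (k + 2) X z (wI X ρ E' G) (8 * X) Ω := by
      apply env_I K (k + 2) X z hX1 ρ hρ0 E' G hEI hGI2 (X / L ^ U)
      · intro γ c' hγ α
        exact hXI T' X (sup_le_of _ XI hXIs T' (mem_powerset.2 hT'T)) z
          ((pow_le_pow_right₀ hL1 (hBI' T' hT'T)).trans hzl) hzu b1 hb1 γ c' hγ α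
      · calc X / L ^ U * √((E'.card : ℝ) * G.card) ≤ (X : ℝ) ^ 2 / (2 * L ^ (A' + k + 2)) := hδsq
          _ ≤ (X : ℝ) ^ 2 / L ^ (A' + k + 2) := by rw [hhalf]; linarith
          _ ≤ _ := hΩl2
    have hEnvP : ∀ a ∈ T', Envw (some a) K (k + 2) X z (wP X a ρ E' G) (8 * X) (Ω / (L * Vz z)) := by
      intro a ha
      obtain ⟨ha1, ha2, ha3⟩ := hT'1 a ha
      have haX : a ≤ X := by
        have h1 : (a : ℝ) ≤ X := by
          have h2 : (a : ℝ) ≤ c0 := by exact_mod_cast ha2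
          have h3 : L ≤ X := (Real.log_le_sub_one_of_pos hX0).trans (by linarith)
          linarith
        exact_mod_cast h1
      apply env_P K (k + 2) X z a hX16 haX hKz ρ hρ0 hρ1 E' G hEI hGI2 (X / L ^ U)
      · intro γ c' hγ hc' α
        exact hXP T' X (sup_le_of _ XP hXPs T' (mem_powerset.2 hT'T)) z
          ((pow_le_pow_right₀ hL1 (hBP' T' hT'T)).trans hzl) hzu b1 hb1 a ha ha3 γ c' hγ hc' α
      · have h1 : (G.card : ℝ) * (2 * √((9 * X : ℕ) : ℝ) * Real.log ((9 * X : ℕ) : ℝ)) * (Y16 X : ℝ) ^ 2 ≤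
            (X : ℝ) ^ 2 / (2 * L ^ (A' + k + 2)) := by
          refine le_trans ?_ hpp
          have : 0 ≤ Real.log ((9 * X : ℕ) : ℝ) := Real.log_natCast_nonneg _
          gcongr
        have h2 : Ω / L ^ (k + 2) ≤ (Ω / Vz z) / L ^ (k + 2) := by
          apply div_le_div_of_nonneg_right _ (by positivity)
          rw [le_div_iff₀ (Vz_pos z)]
          exact mul_le_of_le_one_right hΩ0.le (Vz_le_one z)
        rw [hhalf] at h1 hδsq
        linarith
    -- the theorem of Maynard and Tao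
    have hfin := hmt X hXE z hHz hzE T' hT'c (fun a ha => ⟨(hT'1 a ha).1, by
        have h2 : (a : ℝ) ≤ c0 := by exact_mod_cast (hT'1 a ha).2.1
        rw [one_mul, ← hL]
        linarith⟩) (wI X ρ E' G) (fun a => wP X a ρ E' G) (8 * X) Ω hEnvI hEnvP
      (by
        intro a ha n hn
        unfold wP at hn
        have h1 : n ∈ Ico (4 * X) (8 * X) ∧ (n + a).Prime := by
          by_contra h
          rw [if_neg h] at hn
          exact hn rfl
        have h2 := mem_Ico.1 h1.1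
        exact ⟨by omega, h1.2⟩)
      (by
        intro a ha n
        have ha2 := (hT'1 a ha).2.1
        unfold wP wI
        by_cases h1 : n ∈ Ico (4 * X) (8 * X)
        · rw [if_pos h1]
          have h3 : 0 ≤ ρ n * mm E' G n := mul_nonneg (hρ0 n) (mm_nonneg _ _ _)
          by_cases h2 : (n + a).Prime
          · rw [if_pos ⟨h1, h2⟩, mul_comm (1 + s₀)]
            apply mul_le_mul_of_nonneg_left _ h3
            rw [← hL, div_le_iff₀ hL0]
            refine ArithmeticFunction.vonMangoldt_le_log.trans ?_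
            have h4 : ((n + a : ℕ) : ℝ) ≤ 9 * X := by
              have h5 := (mem_Ico.1 h1).2
              have h6 : (n : ℝ) ≤ 8 * X := by exact_mod_cast h5.le
              have h7 : (a : ℝ) ≤ X := by
                have h8 : (a : ℝ) ≤ c0 := by exact_mod_cast ha2
                have h9 : L ≤ X := (Real.log_le_sub_one_of_pos hX0).trans (by linarith)
                linarith
              push_cast
              linarith
            have h5 : (0 : ℝ) < ((n + a : ℕ) : ℝ) := by exact_mod_cast h2.pos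
            calc Real.log ((n + a : ℕ) : ℝ) ≤ Real.log (9 * X) := Real.log_le_log h5 h4
              _ = Real.log 9 + L := Real.log_mul (by norm_num) hX0.ne'
              _ ≤ s₀ * L + L := by
                  rw [div_le_iff₀ hs₀] at hl5
                  linarith
              _ = (1 + s₀) * L := by ring
          · rw [if_neg (fun h => h2 h.2)]
            positivity
        · rw [if_neg (fun h => h1 h.1), if_neg h1]
          simp)
      (by
        intro n hn
        unfold wI at hn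
        have h1 : n ∈ Ico (4 * X) (8 * X) := by
          by_contra h
          rw [if_neg h] at hn
          exact hn rfl
        have h2 := mem_Ico.1 h1
        omega)
    have hcnt := count_leD S S' hS' τ hτ r X ρ hρ0 hρ1 E' Go (fun N hN => (hE'I N hN).1) hGIo' hGp
    have hup : ∑ N ∈ E', (gdD S τ r X (N - (3 * X - 1)) : ℝ) ≤ 3 * X * (X / L ^ D) := by
      calc ∑ N ∈ E', (gdD S τ r X (N - (3 * X - 1)) : ℝ) ≤ ∑ N ∈ E', (X / L ^ D : ℝ) := by
            apply sum_le_sum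
            intro N hN
            exact ((mem_filter.1 (mem_filter.1 (mem_filter.1 hN).1).1).2.2).le
        _ = E'.card * (X / L ^ D) := by rw [sum_const, nsmul_eq_mul]
        _ ≤ _ := mul_le_mul_of_nonneg_right hE'X (by positivity)
    have hall : cE * (Ω * VE z (JJ δE X) ^ k) ≤ 3 * X * (X / L ^ D) := by
      refine hfin.trans (le_trans (le_of_eq ?_) (hcnt.trans hup))
      rfl
    -- contradiction
    have hlowf : cE * ((X : ℝ) ^ 2 / L ^ A' * (cv / L) ^ k) ≤ 3 * X * (X / L ^ D) := by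
      refine le_trans ?_ hall
      apply mul_le_mul_of_nonneg_left _ hcE.le
      apply mul_le_mul hΩl _ (by positivity) hΩ0.le
      exact pow_le_pow_left₀ (by positivity) hvE k
    have e1 : cE * ((X : ℝ) ^ 2 / L ^ A' * (cv / L) ^ k) = (cE * cv ^ k * L) * (L * (X ^ 2 / L ^ D)) :=
      num_e1 cE X L cv hL0 A' k
    have e2 : 3 * X * (X / L ^ D) = 3 * ((X : ℝ) ^ 2 / L ^ D) := by ring
    rw [e1, e2] at hlowf
    have h1 : 0 < cE * cv ^ k := by positivity
    rw [div_le_iff₀ h1] at hl4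
    have h2 : 0 < (X : ℝ) ^ 2 / L ^ D := by positivity
    have h3 : 4 ≤ cE * cv ^ k * L := by linarith
    have h4 : 4 * (1 * ((X : ℝ) ^ 2 / L ^ D)) ≤ (cE * cv ^ k * L) * (L * (X ^ 2 / L ^ D)) := by
      apply mul_le_mul h3 _ (by positivity) (by positivity)
      exact mul_le_mul_of_nonneg_right hL1 h2.le
    linarith
  -- all the classes
  set Bad := (Ico (6 * X) (9 * X)).filter (fun N => LocD S τ X (N - (3 * X - 1)) ∧
      (gdD S τ r X (N - (3 * X - 1)) : ℝ) < X / L ^ D) with hBad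
  have hcard : Bad.card = ∑ u ∈ range (Wm X), (Bad.filter (fun N => N % Wm X = u)).card :=
    card_eq_sum_card_fiberwise (fun N _ => mem_coe.2 (mem_range.2 (Nat.mod_lt _ hW0)))
  rw [hcard]
  push_cast
  calc ∑ u ∈ range (Wm X), ((Bad.filter (fun N => N % Wm X = u)).card : ℝ) ≤
      ∑ u ∈ range (Wm X), η * (X / Wm X) := sum_le_sum fun u hu => hclass u (mem_range.1 hu)
    _ = η * X := by
        rw [sum_const, card_range, nsmul_eq_mul]
        field_simp

end Pool.Agent.T2H22.DF
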