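import Pool.Agent.T2H22.AD.AsmA
import Pool.Agent.T2H22.AA.UpW
import Pool.Agent.T2H22.DF.SecP

/-! Auxiliary lemmas for `DF/Asm.lean` (a separate file, so that the long theorems are compiled in parallel). -/

set_option autoImplicit false

open Finset

namespace Pool.Agent.T2H22.DF

open Pool.Agent.T2H22.AA
open Pool.Agent.T2H22.AD

open Pool.Agent.H361R2.PP
open Pool.Agent.W70.HR
open Pool.Agent.H862R2.PPSm5 (vv_lower HH_tendsto log_tendsto)
open Pool.Agent.H373R2.T7 (Vz pz mem_pz)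
open Pool.Agent.T2H22.BG (sh sh_inj)

open Classical in
/-- the number of the good `x` -/
noncomputable def gdD (S : Finset ℕ) (τ : ℕ → ℕ) (r X h : ℕ) : ℕ :=
  ((Ico (4 * X) (8 * X)).filter (fun x => (h + X ≤ x ∧ x < h + 2 * X) ∧
    r ≤ (S.filter (fun a => (x - h + a).Prime ∧ (x + τ a).Prime)).card)).card

/-- the local condition -/
def LocD (S : Finset ℕ) (τ : ℕ → ℕ) (X u : ℕ) : Prop :=
  ∃ b1 b2 : ℕ, b1 < Wm X ∧ b2 < Wm X ∧ b1 ≡ b2 + u [MOD Wm X] ∧
      (∀ a ∈ S, (b2 + a).Coprime (Wm X)) ∧ ∀ a ∈ S, (b1 + τ a).Coprime (Wm X)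

/-- the mirror image of a subset of `[X, 2X)` -/
noncomputable def mir (X : ℕ) (G : Finset ℕ) : Finset ℕ := G.image (fun y => 3 * X - 1 - y)

theorem mem_mir {X : ℕ} {G : Finset ℕ} (hG : ∀ y ∈ G, X ≤ y ∧ y < 2 * X) {y : ℕ} :
    y ∈ mir X G ↔ y < 2 * X ∧ X ≤ y ∧ 3 * X - 1 - y ∈ G := by
  unfold mir
  rw [mem_image]
  constructor
  · rintro ⟨w, hw, rfl⟩
    have := hG w hw
    refine ⟨by omega, by omega, ?_⟩
    rwa [show 3 * X - 1 - (3 * X - 1 - w) = w by omega]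
  · rintro ⟨h1, h2, h3⟩
    exact ⟨_, h3, by omega⟩

theorem card_mir {X : ℕ} {G : Finset ℕ} (hG : ∀ y ∈ G, X ≤ y ∧ y < 2 * X) : (mir X G).card = G.card := by
  unfold mir
  apply card_image_of_injOn
  intro y hy y' hy' he
  have h1 := hG y hy
  have h2 := hG y' hy'
  simp only at he
  omega

theorem mir_SI {X b : ℕ} {G : Finset ℕ} (hG : G ⊆ SI X b) :
    mir X G ⊆ SI X ((3 * X - 1 + (Wm X - b)) % Wm X) := by
  have hG' : ∀ y ∈ G, (X ≤ y ∧ y < 2 * X) ∧ y % Wm X = b := by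
    intro y hy
    have := hG hy
    unfold SI at this
    rw [mem_filter, mem_Ico] at this
    exact this
  intro y hy
  rw [mem_mir (fun y hy => (hG' y hy).1)] at hy
  obtain ⟨h1, h2, h3⟩ := hy
  obtain ⟨h4, h5⟩ := hG' _ h3
  unfold SI
  rw [mem_filter, mem_Ico]
  refine ⟨⟨h2, h1⟩, ?_⟩
  have hW0 : 0 < Wm X := Wm_pos X
  have hb : b < Wm X := h5 ▸ Nat.mod_lt _ hW0
  have h6 : y + (3 * X - 1 - y) ≡ y + b [MOD Wm X] := by
    apply Nat.ModEq.add_left
    unfold Nat.ModEq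
    rw [h5, Nat.mod_eq_of_lt hb]
  have h7 : (3 * X - 1 + (Wm X - b)) + b ≡ 3 * X - 1 [MOD Wm X] := by
    rw [show (3 * X - 1 + (Wm X - b)) + b = 3 * X - 1 + Wm X by omega]
    simp [Nat.ModEq]
  rw [show y + (3 * X - 1 - y) = 3 * X - 1 by omega] at h6
  have h8 := Nat.ModEq.add_right_cancel' b (h7.trans h6)
  exact h8.symm

theorem mir_pairs {X : ℕ} {G : Finset ℕ} (hG : ∀ y ∈ G, X ≤ y ∧ y < 2 * X) (h : ℕ) :
    ((mir X G).filter (fun y => y + h ∈ mir X G)).card ≤ (G.filter (fun y => y + h ∈ G)).card := by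
  apply card_le_card_of_injOn (fun y => 3 * X - 1 - (y + h))
  · intro y hy
    rw [mem_coe, mem_filter, mem_mir hG, mem_mir hG] at hy
    obtain ⟨⟨h1, h2, h3⟩, h4, h5, h6⟩ := hy
    rw [mem_coe, mem_filter]
    simp only
    refine ⟨h6, ?_⟩
    rwa [show 3 * X - 1 - (y + h) + h = 3 * X - 1 - y by omega]
  · intro y hy y' hy' he
    rw [mem_coe, mem_filter, mem_mir hG, mem_mir hG] at hy hy'
    simp only at he
    omega

/-- the number of the clusters -/
theorem count_leD (S S' : Finset ℕ) (hS' : S' ⊆ S) (τ : ℕ → ℕ) (hτ : Set.InjOn τ S) (r X : ℕ) (ρ : ℕ → ℝ)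
    (hρ : ∀ x, 0 ≤ ρ x) (hρ1 : ∀ x, ρ x ≤ 1) (E G : Finset ℕ) (hE : ∀ N ∈ E, 6 * X ≤ N)
    (hGI : ∀ y ∈ G, X ≤ y ∧ y < 2 * X) (hG : ∀ y ∈ G, ∀ a ∈ S', (y + a).Prime) :
    ∑ n ∈ (range (8 * X)).filter (fun n => r ≤ ((S'.image τ).filter
      (fun a => (n + a).Prime)).card), wI X ρ E (mir X G) n ≤ ∑ N ∈ E, (gdD S τ r X (N - (3 * X - 1)) : ℝ) := by
  classical
  set P : ℕ → Prop := fun n => r ≤ ((S'.image τ).filter (fun a => (n + a).Prime)).card
    with hP
  set I' := (Ico (4 * X) (8 * X)).filter P with hI'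
  have h1 : ∑ n ∈ (range (8 * X)).filter P, wI X ρ E (mir X G) n ≤ ∑ x ∈ I', (1 : ℝ) * mm E (mir X G) x := by
    have h2 : I' = ((range (8 * X)).filter P).filter (fun x => x ∈ Ico (4 * X) (8 * X)) := by
      ext x
      rw [hI', mem_filter, mem_filter, mem_filter, mem_range, mem_Ico]
      constructor
      · rintro ⟨a, b⟩
        exact ⟨⟨a.2, b⟩, a⟩
      · rintro ⟨⟨a, b⟩, c⟩
        exact ⟨c, b⟩
    rw [h2, sum_filter (s := (range (8 * X)).filter P)]
    apply sum_le_sum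
    intro x _
    unfold wI
    split_ifs with h
    · rw [one_mul]
      calc ρ x * mm E (mir X G) x ≤ 1 * mm E (mir X G) x := mul_le_mul_of_nonneg_right (hρ1 x) (mm_nonneg _ _ _)
        _ = _ := one_mul _
    · exact le_rfl
  refine h1.trans ?_
  rw [mm_sum]
  apply sum_le_sum
  intro N hN
  have hN6 := hE N hN
  rw [sum_comm]
  have h3 : ∀ x ∈ I', ∑ y ∈ mir X G, (if x + y = N then (1 : ℝ) else 0) ≤
      if N - (3 * X - 1) ≤ x ∧ x - (N - (3 * X - 1)) ∈ G then 1 else 0 := by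
    intro x _
    by_cases h : N - (3 * X - 1) ≤ x ∧ x - (N - (3 * X - 1)) ∈ G
    · rw [if_pos h]
      have hx := hGI _ h.2
      rw [sum_eq_single (N - x)]
      · split_ifs <;> norm_num
      · intro y hy hne
        rw [if_neg (by omega)]
      · intro h'
        exfalso
        apply h'
        rw [mem_mir hGI]
        refine ⟨by omega, by omega, ?_⟩
        rw [show 3 * X - 1 - (N - x) = x - (N - (3 * X - 1)) by omega]
        exact h.2
    · rw [if_neg h]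
      apply le_of_eq
      apply sum_eq_zero
      intro y hy
      rw [if_neg]
      intro he
      apply h
      rw [mem_mir hGI] at hy
      refine ⟨by omega, ?_⟩
      rw [show x - (N - (3 * X - 1)) = 3 * X - 1 - y by omega]
      exact hy.2.2
  refine (sum_le_sum h3).trans ?_
  rw [← sum_filter, sum_const, nsmul_eq_mul, mul_one]
  apply Nat.cast_le.2
  unfold gdD
  apply card_le_card
  intro x hx
  rw [mem_filter, hI', mem_filter] at hx
  rw [mem_filter]
  have hxG := hGI _ hx.2.2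
  refine ⟨hx.1.1, ⟨by omega, by omega⟩, ?_⟩
  have h4 : r ≤ ((S'.image τ).filter (fun a => (x + a).Prime)).card := hx.1.2
  refine h4.trans ?_
  have h5 : (S'.image τ).filter (fun a => (x + a).Prime) ⊆
      (S.filter (fun a => (x - (N - (3 * X - 1)) + a).Prime ∧ (x + τ a).Prime)).image τ := by
    intro t ht
    rw [mem_filter, mem_image] at ht
    obtain ⟨⟨a, ha, rfl⟩, hp⟩ := ht
    rw [mem_image]
    refine ⟨a, ?_, rfl⟩
    rw [mem_filter]
    exact ⟨hS' ha, hG _ hx.2.2 a ha, hp⟩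
  exact (card_le_card h5).trans card_image_le

end Pool.Agent.T2H22.DF
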