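import Pool.Agent.T2H22.DF.Asm
import Pool.Agent.T2H22.AD.Gen

/-! Project DF: almost all differences. -/

set_option autoImplicit false

open Finset

namespace Pool.Agent.T2H22.DF

open Pool.Agent.T2H22.AA
open Pool.Agent.T2H22.AD
open Pool.Agent.W70.HR
open Pool.Agent.H361R2.PP
open Pool.Agent.H379R2.PP (exists_rep)
open Pool.Agent.H862R2.PPSm5 (log_tendsto)
open Pool.Agent.T2H22.BG (sh sh_inj)

/-- the local condition from the conditions for the primes -/
theorem locD_of (S : Finset ℕ) (τ : ℕ → ℕ) (X u : ℕ)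
    (h : ∀ p : ℕ, p.Prime → ∃ x : ℕ, x < p ∧ ∀ a ∈ S, ¬ p ∣ x + a ∧ ¬ p ∣ x + u + τ a) :
    LocD S τ X u := by
  classical
  set P : Finset ℕ := (range (HH X + 1)).filter Nat.Prime with hP
  have hPp : ∀ p ∈ P, p.Prime := fun p hp => (mem_filter.1 hp).2
  have hW0 : 0 < Wm X := Wm_pos X
  have hWP : Wm X = ∏ p ∈ P, p := rfl
  choose f hf1 hf2 using fun p : {p : ℕ // p.Prime} => h p.1 p.2
  obtain ⟨r, hr⟩ := exists_rep P hPp (fun p => if h : p.Prime then f ⟨p, h⟩ else 0) (by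
    intro p hp
    have hpp := hPp p hp
    rw [dif_pos hpp]
    exact hf1 ⟨p, hpp⟩)
  set b2 := r % Wm X with hb2
  set b1 := (b2 + u) % Wm X with hb1
  have hb2lt : b2 < Wm X := Nat.mod_lt _ hW0
  have hsum : b1 ≡ b2 + u [MOD Wm X] := Nat.mod_modEq _ _
  have hbp : ∀ p ∈ P, ∀ a ∈ S, ¬ p ∣ b2 + a ∧ ¬ p ∣ b2 + u + τ a := by
    intro p hp a ha
    have hpp := hPp p hp
    have hpW : p ∣ Wm X := by rw [hWP]; exact dvd_prod_of_mem _ hp
    have h1 := hr p hp
    rw [dif_pos hpp] at h1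
    have h2 := hf2 ⟨p, hpp⟩ a ha
    have h3 : b2 ≡ f ⟨p, hpp⟩ [MOD p] := by
      have h4 : b2 ≡ r [MOD p] := (Nat.mod_modEq r (Wm X)).of_dvd hpW
      refine h4.trans ?_
      unfold Nat.ModEq
      rw [h1, Nat.mod_eq_of_lt (hf1 ⟨p, hpp⟩)]
    have h4 : b2 + a ≡ f ⟨p, hpp⟩ + a [MOD p] := Nat.ModEq.add_right _ h3
    have h5 : b2 + u + τ a ≡ f ⟨p, hpp⟩ + u + τ a [MOD p] :=
      Nat.ModEq.add_right _ (Nat.ModEq.add_right _ h3)
    constructor
    · intro hd
      exact h2.1 ((Nat.ModEq.dvd_iff h4 dvd_rfl).1 hd)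
    · intro hd
      exact h2.2 ((Nat.ModEq.dvd_iff h5 dvd_rfl).1 hd)
  have hcop : ∀ x : ℕ, (∀ p ∈ P, ¬ p ∣ x) → x.Coprime (Wm X) := by
    intro x hx
    rw [hWP]
    apply Nat.Coprime.prod_right
    intro p hp
    rw [Nat.coprime_comm]
    exact ((hPp p hp).coprime_iff_not_dvd).2 (hx p hp)
  refine ⟨b1, b2, Nat.mod_lt _ hW0, hb2lt, hsum, ?_, ?_⟩
  · intro a ha
    exact hcop _ fun p hp => (hbp p hp a ha).1
  · intro a ha
    apply hcop
    intro p hp hd
    have hpW : p ∣ Wm X := by rw [hWP]; exact dvd_prod_of_mem _ hp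
    apply (hbp p hp a ha).2
    have h2 : b1 + τ a ≡ b2 + u + τ a [MOD p] := Nat.ModEq.add_right _ (hsum.of_dvd hpW)
    exact (Nat.ModEq.dvd_iff h2 dvd_rfl).1 hd

open Classical in
/-- almost all differences, for a general pattern -/
theorem main_G (r : ℕ) : ∃ k2 : ℕ, 1 ≤ k2 ∧ ∀ (S : Finset ℕ) (τ : ℕ → ℕ), S.card = k2 →
    (∀ a ∈ S, 1 ≤ a) → Set.InjOn τ S → (∀ a ∈ S, 1 ≤ τ a) → ∃ D : ℕ,
    ∀ cnt : ℕ → ℕ, (∀ X h : ℕ, 3 * X < h → h ≤ 6 * X → 1 ≤ X → gdD S τ r X h ≤ cnt h) →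
    ∀ ε : ℝ, 0 < ε → ∃ X₀ : ℕ, ∀ X : ℕ, X₀ ≤ X →
    (((Icc 1 X).filter (fun h : ℕ => (∀ Y : ℕ, LocD S τ Y h) ∧
      (cnt h : ℝ) < h / Real.log h ^ D)).card : ℝ) ≤ ε * X := by
  obtain ⟨k2, hk2, hone⟩ := oneD (eqI tR) (eqP tR supF (eqI tR)) r
  refine ⟨k2, hk2, fun S τ hSc hS1 hτ hτ1 => ?_⟩
  obtain ⟨D, h⟩ := hone S τ hSc hS1 hτ hτ1
  refine ⟨D + 1, fun cnt hcnt ε hε => ?_⟩
  obtain ⟨X₁, h1⟩ := h (ε / 12) (by positivity)
  obtain ⟨X₂, h2⟩ := Filter.eventually_atTop.1 (log_tendsto.eventually_ge_atTop (6 : ℝ))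
  set P : ℕ → Prop := fun n : ℕ => (∀ Y : ℕ, LocD S τ Y n) ∧
    (cnt n : ℝ) < n / Real.log n ^ (D + 1) with hP
  set Y₁ : ℕ := max (6 * X₁) (max (6 * X₂) 100) with hY₁
  have hkey : ∀ Y : ℕ, Y₁ ≤ Y → (((Ioc (5 * Y / 6) Y).filter P).card : ℝ) ≤ ε / 12 * Y := by
    intro Y hY
    simp only [hY₁, max_le_iff] at hY
    obtain ⟨hY1, hY2, hY3⟩ := hY
    set X : ℕ := Y / 6 + 1 with hX
    have hXX1 : X₁ ≤ X := by omega
    have hXX2 : X₂ ≤ X := by omega
    have h3 := h1 X hXX1
    have hL4 := h2 X hXX2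
    have hXY : (X : ℝ) ≤ Y := by
      have : X ≤ Y := by omega
      exact_mod_cast this
    refine le_trans ?_ (mul_le_mul_of_nonneg_left hXY (by positivity : 0 ≤ ε / 12))
    refine le_trans ?_ h3
    apply Nat.cast_le.2
    apply card_le_card_of_injOn (fun n => n + (3 * X - 1))
    · intro n hn
      rw [mem_coe, mem_filter, mem_Ioc] at hn
      obtain ⟨⟨hn1, hn2⟩, hn3⟩ := hn
      have hn4 : n ≤ 6 * X := by omega
      have hn5 : 3 * X < n := by omega
      rw [mem_coe, mem_filter, mem_Ico]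
      simp only
      rw [show n + (3 * X - 1) - (3 * X - 1) = n by omega]
      refine ⟨⟨by omega, by omega⟩, hn3.1 X, ?_⟩
      have h4 := hcnt X n hn5 hn4 (by omega)
      have h5 : (gdD S τ r X n : ℝ) ≤ cnt n := by exact_mod_cast h4
      refine lt_of_le_of_lt h5 (lt_of_lt_of_le hn3.2 ?_)
      have hX0 : (0 : ℝ) < X := by
        have : 0 < X := by omega
        exact_mod_cast this
      have hnr : (n : ℝ) ≤ 6 * X := by exact_mod_cast hn4
      have hXn : (X : ℝ) ≤ n := by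
        have : X ≤ n := by omega
        exact_mod_cast this
      have hLn : Real.log X ≤ Real.log n := Real.log_le_log hX0 hXn
      have hL0 : 0 < Real.log X := by linarith
      calc (n : ℝ) / Real.log n ^ (D + 1) ≤ (6 * X) / Real.log X ^ (D + 1) := by
            apply div_le_div₀ (by positivity) hnr (by positivity)
            exact pow_le_pow_left₀ hL0.le hLn _
        _ = (6 / Real.log X) * (X / Real.log X ^ D) := by
            rw [pow_succ]
            field_simp
        _ ≤ 1 * (X / Real.log X ^ D) := by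
            apply mul_le_mul_of_nonneg_right _ (by positivity)
            rw [div_le_one hL0]
            exact hL4
        _ = _ := one_mul _
    · intro n hn n' hn' he
      simp only at he
      omega
  have hit := iter' P (ε / 12) (by positivity) Y₁ (by omega) hkey
  refine ⟨⌈2 * Y₁ / ε⌉₊, fun X hX => ?_⟩
  refine (hit X).trans ?_
  have h6 : 2 * (Y₁ : ℝ) / ε ≤ X := (Nat.le_ceil _).trans (by exact_mod_cast hX)
  rw [div_le_iff₀ hε] at h6
  linarith

/-- no local obstruction to `y + a` and `y + a + h`, `a ∈ A`, being all prime -/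
def PossT (A : Finset ℕ) (h : ℕ) : Prop :=
  ∀ p : ℕ, p.Prime → ∃ x : ℤ, ∀ a ∈ A, ¬ (p : ℤ) ∣ x + a ∧ ¬ (p : ℤ) ∣ x + a + h

open Classical in
/-- the number of `y ∈ [h/6, h]` such that for at least `r` of the `a ∈ A` both `y + a` and `y + a + h` are primes -/
noncomputable def cntT (r : ℕ) (A : Finset ℕ) (h : ℕ) : ℕ :=
  ((Icc (h / 6) h).filter (fun y => r ≤ (A.filter (fun a => (y + a).Prime ∧ (y + a + h).Prime)).card)).card

open Classical in
theorem all_T (r : ℕ) : ∃ K : ℕ, ∀ A : Finset ℕ, K ≤ A.card → ∃ D : ℕ, ∀ ε : ℝ, 0 < ε →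
    ∃ X₀ : ℕ, ∀ X : ℕ, X₀ ≤ X →
    (((Icc 1 X).filter (fun h : ℕ => PossT A h ∧ (cntT r A h : ℝ) < h / Real.log h ^ D)).card : ℝ) ≤
      ε * X := by
  obtain ⟨k2, hk2, hmain⟩ := main_G r
  refine ⟨k2, fun A0 hA0 => ?_⟩
  obtain ⟨A, hAA, hAc⟩ := exists_subset_card_eq hA0
  set S : Finset ℕ := A.image (fun a => a + 1) with hS
  have hSm : ∀ s ∈ S, 1 ≤ s ∧ s - 1 ∈ A := by
    intro s hs
    rw [hS, mem_image] at hs
    obtain ⟨a, ha, rfl⟩ := hs
    refine ⟨by omega, ?_⟩
    rwa [Nat.add_sub_cancel]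
  have hSc : S.card = k2 := by
    rw [hS, card_image_of_injective _ (fun a b h => by simpa using h), hAc]
  obtain ⟨D, h⟩ := hmain S id hSc (fun s hs => (hSm s hs).1) (Set.injOn_id _) (fun s hs => (hSm s hs).1)
  refine ⟨D, fun ε hε => ?_⟩
  obtain ⟨X₀, h0⟩ := h (cntT r A) (by
    intro X n hX1 hX2 hX0
    unfold gdD cntT
    apply card_le_card_of_injOn (fun x => x + 1 - n)
    · intro x hx
      rw [mem_coe, mem_filter, mem_Ico] at hx
      obtain ⟨⟨hx1, hx2⟩, ⟨hx3, hx4⟩, hxr⟩ := hx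
      rw [mem_coe, mem_filter, mem_Icc]
      simp only
      refine ⟨⟨by omega, by omega⟩, ?_⟩
      refine hxr.trans ?_
      apply card_le_card_of_injOn (fun s => s - 1)
      · intro s hs
        rw [mem_coe, mem_filter] at hs
        obtain ⟨hsS, hp, hq⟩ := hs
        obtain ⟨h1, h3⟩ := hSm s hsS
        rw [mem_coe, mem_filter]
        simp only
        refine ⟨h3, ?_⟩
        have e1 : x + 1 - n + (s - 1) = x - n + s := by omega
        have e2 : x + 1 - n + (s - 1) + n = x + id s := by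
          simp only [id]
          omega
        rw [e2, e1]
        exact ⟨hp, hq⟩
      · intro s hs s' hs' he
        rw [mem_coe, mem_filter] at hs hs'
        have h1 := hSm s hs.1
        have h2 := hSm s' hs'.1
        simp only at he
        omega
    · intro x hx x' hx' he
      rw [mem_coe, mem_filter, mem_Ico] at hx hx'
      simp only at he
      omega) ε hε
  refine ⟨X₀, fun X hX => le_trans ?_ (h0 X hX)⟩
  apply Nat.cast_le.2
  apply card_le_card
  intro n hn
  rw [mem_filter] at hn ⊢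
  have hcntle : cntT r A n ≤ cntT r A0 n := by
    unfold cntT
    apply card_le_card
    intro y hy
    rw [mem_filter] at hy ⊢
    exact ⟨hy.1, hy.2.trans (card_le_card (filter_subset_filter _ hAA))⟩
  refine ⟨hn.1, fun Y => locD_of S id Y _ fun p hp => ?_, lt_of_le_of_lt (by exact_mod_cast hcntle) hn.2.2⟩
  obtain ⟨xp, hxp⟩ := hn.2.1 p hp
  obtain ⟨x, hx1, hx2⟩ := natmod p hp (xp - 1)
  refine ⟨x, hx1, fun s hs => ?_⟩
  obtain ⟨k1, k3⟩ := hSm s hs
  obtain ⟨e1, e2⟩ := hxp _ (hAA k3)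
  have hcast : (((s - 1 : ℕ) : ℕ) : ℤ) = (s : ℤ) - 1 := by omega
  rw [hcast] at e1 e2
  constructor
  · intro hd
    apply e1
    have hd' : (p : ℤ) ∣ (x : ℤ) + s := by exact_mod_cast hd
    have := dvd_add hx2 hd'
    have e : xp - 1 - (x : ℤ) + (x + s) = xp + (s - 1) := by ring
    rwa [e] at this
  · intro hd
    apply e2
    have hd' : (p : ℤ) ∣ (x : ℤ) + n + s := by exact_mod_cast hd
    have := dvd_add hx2 hd'
    have e : xp - 1 - (x : ℤ) + (x + n + s) = xp + (s - 1) + n := by ring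
    rwa [e] at this

open Classical in
/-- the number of `y ∈ [h/6, h]` such that `[y, y + C]` contains at least `r` primes `p` with `p + h` prime -/
noncomputable def cw (r C h : ℕ) : ℕ :=
  ((Icc (h / 6) h).filter (fun y => r ≤ ((Icc y (y + C)).filter (fun p => p.Prime ∧ (p + h).Prime)).card)).card

/-- the class modulo one prime -/
theorem class_pT (S : Finset ℕ) (k2 : ℕ) (hS : S.card ≤ k2) (hdiv : ∀ a ∈ S, ∀ p : ℕ, p.Prime →
    p ≤ 2 * k2 + 2 → p ∣ a) (m : ℕ) (hm : Even m) (p : ℕ) (hp : p.Prime) :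
    ∃ x : ℕ, x < p ∧ ∀ a ∈ S, ¬ p ∣ x + a ∧ ¬ p ∣ x + m + a := by
  classical
  by_cases hsmall : p ≤ 2 * k2 + 2
  · -- small primes
    have key : ∀ x : ℕ, ¬ p ∣ x → ¬ p ∣ x + m → ∀ a ∈ S, ¬ p ∣ x + a ∧ ¬ p ∣ x + m + a := by
      intro x hx0 hxm a ha
      have hpa := hdiv a ha p hp hsmall
      exact ⟨fun hd => hx0 ((Nat.dvd_add_left hpa).1 hd), fun hd => hxm ((Nat.dvd_add_left hpa).1 hd)⟩
    rcases hp.eq_two_or_odd with h2 | hodd
    · subst h2
      refine ⟨1, by norm_num, key 1 (by norm_num) ?_⟩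
      have := Nat.even_iff.1 hm
      omega
    · have h3 : 3 ≤ p := by
        have := hp.two_le
        omega
      have h1 : ¬ p ∣ 1 := fun h => by
        have := Nat.le_of_dvd (by norm_num) h
        omega
      have h2 : ¬ p ∣ 2 := fun h => by
        have := Nat.le_of_dvd (by norm_num) h
        omega
      by_cases h4 : p ∣ 1 + m
      · refine ⟨2, by omega, key 2 h2 ?_⟩
        intro h5
        have h6 : p ∣ (2 + m) - (1 + m) := Nat.dvd_sub h5 h4
        rw [show (2 + m) - (1 + m) = 1 by omega] at h6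
        exact h1 h6
      · exact ⟨1, by omega, key 1 h1 h4⟩
  · -- large primes
    push Not at hsmall
    have hp0 := hp.pos
    set B : Finset ℕ := S.image (fun a => (p - a % p) % p) ∪ S.image (fun a => (p - (m + a) % p) % p)
      with hB
    have hBc : B.card < p := by
      have h1 : B.card ≤ S.card + S.card :=
        (card_union_le _ _).trans (add_le_add card_image_le card_image_le)
      omega
    obtain ⟨x, hx, hxB⟩ : ∃ x ∈ range p, x ∉ B := by
      by_contra hcon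
      push Not at hcon
      have : range p ⊆ B := fun x hx => hcon x hx
      have := card_le_card this
      rw [card_range] at this
      omega
    rw [mem_range] at hx
    have gen : ∀ w : ℕ, p ∣ x + w → (p - w % p) % p = x := by
      intro w hd
      have h1 : x + w ≡ 0 [MOD p] := (Nat.modEq_zero_iff_dvd).2 hd
      have h2 : w + (p - w % p) ≡ 0 [MOD p] := by
        rw [Nat.modEq_zero_iff_dvd]
        have h2 : w % p < p := Nat.mod_lt _ hp0
        have h3 : w + (p - w % p) = p + p * (w / p) := by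
          have := Nat.mod_add_div w p
          omega
        rw [h3]
        exact dvd_add dvd_rfl (dvd_mul_right _ _)
      have h3 : x + w + (p - w % p) ≡ 0 + (p - w % p) [MOD p] := Nat.ModEq.add_right _ h1
      have h4 : x + (w + (p - w % p)) ≡ x + 0 [MOD p] := Nat.ModEq.add_left x h2
      rw [← add_assoc, add_zero] at h4
      rw [zero_add] at h3
      have h5 := h3.symm.trans h4
      unfold Nat.ModEq at h5
      rw [Nat.mod_eq_of_lt hx] at h5
      exact h5
    refine ⟨x, hx, fun a ha => ?_⟩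
    constructor
    · intro hd
      apply hxB
      rw [hB, mem_union, mem_image]
      left
      exact ⟨a, ha, gen a hd⟩
    · intro hd
      apply hxB
      rw [hB, mem_union, mem_image, mem_image]
      right
      rw [add_assoc] at hd
      exact ⟨a, ha, gen _ hd⟩

open Classical in
theorem main_W (r : ℕ) : ∃ C D : ℕ, ∀ ε : ℝ, 0 < ε → ∃ X₀ : ℕ, ∀ X : ℕ, X₀ ≤ X →
    (((Icc 1 X).filter (fun h : ℕ => Even h ∧ (cw r C h : ℝ) < h / Real.log h ^ D)).card : ℝ) ≤ ε * X := by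
  obtain ⟨k2, hk2, hmain⟩ := main_G r
  -- the tuple
  set M0 : ℕ := (2 * k2 + 2).factorial with hM0
  have hM00 : 0 < M0 := Nat.factorial_pos _
  set S : Finset ℕ := (range k2).image (sh M0) with hS
  have hSc : S.card = k2 := by
    rw [hS, card_image_of_injective _ (sh_inj hM00), card_range]
  have hS1 : ∀ a ∈ S, 1 ≤ a := by
    intro a ha
    rw [hS, mem_image] at ha
    obtain ⟨i, _, rfl⟩ := ha
    unfold sh
    exact Nat.mul_pos hM00 (by omega)
  have hSdiv : ∀ a ∈ S, ∀ p : ℕ, p.Prime → p ≤ 2 * k2 + 2 → p ∣ a := by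
    intro a ha p hp hpk
    rw [hS, mem_image] at ha
    obtain ⟨i, _, rfl⟩ := ha
    unfold sh
    exact dvd_mul_of_dvd_left ((hp.dvd_factorial).2 hpk) _
  set c0 : ℕ := S.sup id with hc0d
  have hc0 : ∀ a ∈ S, a ≤ c0 := fun a ha => Finset.le_sup (f := id) ha
  obtain ⟨D, h⟩ := hmain S id hSc hS1 (Set.injOn_id _) hS1
  refine ⟨c0, D, fun ε hε => ?_⟩
  obtain ⟨X₀, h0⟩ := h (cw r c0) (by
    intro X n hX1 hX2 hX0
    unfold gdD cw
    apply card_le_card_of_injOn (fun x => x - n)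
    · intro x hx
      rw [mem_coe, mem_filter, mem_Ico] at hx
      obtain ⟨⟨hx1, hx2⟩, ⟨hx3, hx4⟩, hxr⟩ := hx
      rw [mem_coe, mem_filter, mem_Icc]
      simp only
      refine ⟨⟨by omega, by omega⟩, ?_⟩
      refine hxr.trans ?_
      apply card_le_card_of_injOn (fun s => x - n + s)
      · intro s hs
        rw [mem_coe, mem_filter] at hs
        obtain ⟨hsS, hp, hq⟩ := hs
        have h1 := hc0 s hsS
        rw [mem_coe, mem_filter, mem_Icc]
        simp only
        refine ⟨⟨by omega, by omega⟩, hp, ?_⟩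
        rw [show x - n + s + n = x + id s by simp only [id]; omega]
        exact hq
      · intro s hs s' hs' he
        simp only at he
        omega
    · intro x hx x' hx' he
      rw [mem_coe, mem_filter, mem_Ico] at hx hx'
      simp only at he
      omega) ε hε
  refine ⟨X₀, fun X hX => le_trans ?_ (h0 X hX)⟩
  apply Nat.cast_le.2
  apply card_le_card
  intro n hn
  rw [mem_filter] at hn ⊢
  exact ⟨hn.1, fun Y => locD_of S id Y _ fun p hp => class_pT S k2 hSc.le hSdiv n hn.2.1 p hp, hn.2.2⟩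

end Pool.Agent.T2H22.DF
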